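import Mathlib
import Pool.Agent.H350R3.MG.PDefs
import Pool.Agent.H350R3.MG.PLem
import Pool.Agent.H938R2.Count
import Pool.Agent.TH176.FB.J25

set_option autoImplicit false

/-!
# The conjecture of Laface and Ugaglia for linear systems in `ℙ³` is false

The smallest counterexample is `ℒ = ℒ_{3,10}(5^7, 4, 3^2)`. It is Cremona reduced, `vdim ℒ = 0`,
`ℒ · ⟨p_i, p_j⟩ ≥ 0` for all `i ≠ j`, and `Q · (ℒ - Q) · (ℒ - K) ≥ 0` for all the quadrics `Q` through
nine of the ten points; so neither condition 1 nor condition 2 holds. But `dim ℒ ≥ 1`: if `Q` is the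
quadric through `p_1, …, p_9` and `Q'` the quadric through `p_1, …, p_8, p_10`, then
`ℒ` contains `Q + Q' + ℒ_{3,6}(3^7, 2^3)`, and `vdim ℒ_{3,6}(3^7, 2^3) = 1`. So `ℒ` is special.

For `Q` the number in condition 2 is `0`, but for the quadric `Q'` and the system `ℒ - Q`, which has the
same virtual dimension as `ℒ`, it is `-2`.

This is the first member of the infinite sequence
`ℒ_{3,2k}(k^7, k - 1, a^2)` with `k + 1 = a (a + 1) / 2`, `a ≥ 3`, of counterexamples.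
-/

namespace Pool.Agent.Results.MP_ed30a9_ag.ConjectureFails

open MvPolynomial
open scoped LinearAlgebra.Projectivization
open Pool.Agent.H350R3.MG

/-- The vector space of the forms of degree `d` with multiplicity at least `m i` at the point `P i` of
`ℙ³` for every `i`. The nonzero ones define the surfaces of `ℒ = ℒ_{3,d}(m_1, …, m_s)`. -/
noncomputable def forms {s : ℕ} (d : ℕ) (m : Fin s → ℕ) (P : Fin s → ℙ ℂ (Fin (3 + 1) → ℂ)) :
    Submodule ℂ (MvPolynomial (Fin (3 + 1)) ℂ) :=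
  homogeneousSubmodule (Fin (3 + 1)) ℂ d ⊓
    Submodule.restrictScalars ℂ (⨅ i, primeIdeal (P i) ^ m i : Ideal (MvPolynomial (Fin (3 + 1)) ℂ))

/-- The projective dimension of `ℒ` (`-1` if it is empty). -/
noncomputable def dim {s : ℕ} (d : ℕ) (m : Fin s → ℕ) (P : Fin s → ℙ ℂ (Fin (3 + 1) → ℂ)) : ℤ :=
  (Module.finrank ℂ ↥(forms d m P) : ℤ) - 1

/-- The virtual dimension. -/
def vdim {s : ℕ} (d : ℕ) (m : Fin s → ℕ) : ℤ :=
  ((d + 3).choose 3 : ℤ) - ∑ i, ((m i + 2).choose 3 : ℤ) - 1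

/-- The expected dimension. -/
def edim {s : ℕ} (d : ℕ) (m : Fin s → ℕ) : ℤ := max (vdim d m) (-1)

/-- `ℒ` is special. -/
def Special {s : ℕ} (d : ℕ) (m : Fin s → ℕ) (P : Fin s → ℙ ℂ (Fin (3 + 1) → ℂ)) : Prop :=
  edim d m < dim d m P

/-- `ℒ` is Cremona reduced. -/
def CremonaReduced {s : ℕ} (d : ℕ) (m : Fin s → ℕ) : Prop :=
  ∀ I : Finset (Fin s), I.card = 4 → ∑ i ∈ I, m i ≤ 2 * d

/-- The divisor classes of the blow-up: `(a, x)` is the class `a H - ∑ x_i E_i`. -/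
abbrev Cls (s : ℕ) : Type := ℤ × (Fin s → ℤ)

/-- The triple intersection numbers of the classes `a H - ∑ x_i E_i`, computed with `H ^ 3 = 1`,
`E_i ^ 3 = 1`, all the other triple products of these generators being `0`. -/
def triple {s : ℕ} (D D' D'' : Cls s) : ℤ := D.1 * D'.1 * D''.1 - ∑ i, D.2 i * D'.2 i * D''.2 i

/-- The class of `ℒ`. -/
def cls {s : ℕ} (d : ℕ) (m : Fin s → ℕ) : Cls s := ((d : ℤ), fun i => (m i : ℤ))

/-- The canonical class `-4 H + 2 ∑ E_i`. -/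
def canonical {s : ℕ} : Cls s := (-4, fun _ => -2)

/-- The class `2 H - ∑_{i ∈ I} E_i` of the quadric through the points of `I`. -/
def quadric {s : ℕ} (I : Finset (Fin s)) : Cls s := (2, fun i => if i ∈ I then 1 else 0)

/-- Condition 1: `ℒ · ⟨p_i, p_j⟩ ≤ -2` for some `i ≠ j`. -/
def LineCondition {s : ℕ} (d : ℕ) (m : Fin s → ℕ) : Prop :=
  ∃ i j : Fin s, i ≠ j ∧ (d : ℤ) - m i - m j ≤ -2

/-- Condition 2: `Q · (ℒ - Q) · (ℒ - K) < 0` for the quadric `Q` through nine of the points. -/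
def QuadricCondition {s : ℕ} (d : ℕ) (m : Fin s → ℕ) : Prop :=
  ∃ I : Finset (Fin s), I.card = 9 ∧
    triple (quadric I) (cls d m - quadric I) (cls d m - canonical) < 0

/-- The statement of the conjecture of Laface and Ugaglia for `ℒ_{3,d}(m_1, …, m_s)` and the points
`P`: if `ℒ` is nonempty and Cremona reduced, it is special if and only if condition 1 or 2 holds. -/
def LafaceUgaglia {s : ℕ} (d : ℕ) (m : Fin s → ℕ) (P : Fin s → ℙ ℂ (Fin (3 + 1) → ℂ)) : Prop :=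
  forms d m P ≠ ⊥ → CremonaReduced d m →
    (Special d m P ↔ LineCondition d m ∨ QuadricCondition d m)

/-! ### Dimension counts -/

theorem forms_mk {k d : ℕ} (m : Fin k → ℕ) (v : Fin k → Fin (3 + 1) → ℂ) (hv : ∀ i, v i ≠ 0) :
    forms d m (fun i => Projectivization.mk ℂ (v i) (hv i)) =
      Pool.Agent.H938R2.forms (3 + 1) d m v := by
  unfold forms
  ext F
  rw [Submodule.mem_inf, Submodule.restrictScalars_mem, Submodule.mem_iInf,
    Pool.Agent.H938R2.mem_forms, mem_homogeneousSubmodule]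
  have key : F.IsHomogeneous d → ∀ i,
      (F ∈ primeIdeal (Projectivization.mk ℂ (v i) (hv i)) ^ m i ↔
        Pool.Agent.H938R2.VanishesToOrder (m i) (v i) F) := by
    intro hF i
    rw [primeIdeal_mk]
    exact Pool.Agent.TH176.FB.mem_pow_iff_vanishes (hv i) ((mem_homogeneousSubmodule _ _).2 hF)
  constructor
  · rintro ⟨h1, h2⟩
    exact ⟨h1, fun i => (key h1 i).1 (h2 i)⟩
  · rintro ⟨h1, h2⟩
    exact ⟨h1, fun i => (key h1 i).2 (h2 i)⟩

theorem finite_and_ge {k : ℕ} (d : ℕ) (m : Fin k → ℕ) (P : Fin k → ℙ ℂ (Fin (3 + 1) → ℂ)) :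
    Module.Finite ℂ ↥(forms d m P) ∧
      (d + 3).choose 3 ≤ Module.finrank ℂ ↥(forms d m P) + ∑ i, (m i + 2).choose 3 := by
  have hP : P = fun i => Projectivization.mk ℂ (P i).rep (P i).rep_nonzero :=
    funext fun i => ((P i).mk_rep).symm
  rw [hP, forms_mk]
  exact ⟨inferInstance, Pool.Agent.H938R2.finrank_forms_ge 3 d m _ fun i => (P i).rep_nonzero⟩

/-- Products. -/
theorem mul_mem_forms {k d e : ℕ} {m n r : Fin k → ℕ} {P : Fin k → ℙ ℂ (Fin (3 + 1) → ℂ)}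
    (hr : ∀ i, r i ≤ m i + n i) {F G : MvPolynomial (Fin (3 + 1)) ℂ}
    (hF : F ∈ forms d m P) (hG : G ∈ forms e n P) : F * G ∈ forms (d + e) r P := by
  unfold forms at *
  rw [Submodule.mem_inf, Submodule.restrictScalars_mem, Submodule.mem_iInf,
    mem_homogeneousSubmodule] at *
  refine ⟨hF.1.mul hG.1, fun i => ?_⟩
  have h1 : F * G ∈ primeIdeal (P i) ^ (m i + n i) := by
    rw [pow_add]
    exact Ideal.mul_mem_mul (hF.2 i) (hG.2 i)
  exact Ideal.pow_le_pow_right (hr i) h1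

/-- Multiplication by a fixed form does not lower the dimension. -/
theorem finrank_le_of_mul {k d e : ℕ} {m n r : Fin k → ℕ} {P : Fin k → ℙ ℂ (Fin (3 + 1) → ℂ)}
    (hr : ∀ i, r i ≤ m i + n i) {F : MvPolynomial (Fin (3 + 1)) ℂ} (hF0 : F ≠ 0)
    (hF : F ∈ forms d m P) :
    Module.finrank ℂ ↥(forms e n P) ≤ Module.finrank ℂ ↥(forms (d + e) r P) := by
  have := (finite_and_ge (d + e) r P).1
  let φ : ↥(forms e n P) →ₗ[ℂ] ↥(forms (d + e) r P) :=
    { toFun := fun G => ⟨F * G.1, mul_mem_forms hr hF G.2⟩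
      map_add' := fun G H => Subtype.ext (by simp [mul_add])
      map_smul' := fun c G => Subtype.ext (by simp) }
  refine LinearMap.finrank_le_finrank_of_injective (f := φ) ?_
  intro G H h
  have h1 : F * G.1 = F * H.1 := congrArg Subtype.val h
  exact Subtype.ext (mul_left_cancel₀ hF0 h1)

/-- There is a quadric through any nine of the points. -/
theorem exists_quadric {k : ℕ} (m : Fin k → ℕ) (hm : ∑ i, (m i + 2).choose 3 ≤ 9)
    (P : Fin k → ℙ ℂ (Fin (3 + 1) → ℂ)) : ∃ F ∈ forms 2 m P, F ≠ 0 := by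
  obtain ⟨h1, h2⟩ := finite_and_ge 2 m P
  have h3 : (2 + 3).choose 3 = 10 := by decide
  rw [h3] at h2
  have h4 : 0 < Module.finrank ℂ ↥(forms 2 m P) := by omega
  rw [Module.finrank_pos_iff_exists_ne_zero] at h4
  obtain ⟨⟨F, hF⟩, hF0⟩ := h4
  exact ⟨F, hF, fun h => hF0 (Subtype.ext h)⟩

/-! ### The systems -/

/-- The multiplicities `(k^7, k - 1, a^2)`. -/
def mult (k a : ℕ) : Fin 10 → ℕ := ![k, k, k, k, k, k, k, k - 1, a, a]

theorem three_choose (n : ℕ) : 6 * ((n + 2).choose 3 : ℤ) = n * (n + 1) * (n + 2) := by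
  have h : ∀ n : ℕ, 6 * (n + 2).choose 3 = n * (n + 1) * (n + 2) := by
    intro n
    have h1 := Nat.descFactorial_eq_factorial_mul_choose (n + 2) 3
    have h2 : Nat.factorial 3 = 6 := rfl
    rw [h2] at h1
    rw [← h1]
    simp [Nat.descFactorial]
    ring
  exact_mod_cast h n

theorem sum_mult (k a : ℕ) (f : ℕ → ℤ) :
    ∑ i, f (mult k a i) = 7 * f k + f (k - 1) + 2 * f a := by
  simp only [mult, Fin.sum_univ_succ, Fin.sum_univ_zero]
  simp
  ring

theorem le_of {k a : ℕ} (ha : 3 ≤ a) (hk : 2 * (k + 1) = a * (a + 1)) : a + 2 ≤ k := by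
  obtain ⟨b, rfl⟩ := Nat.exists_eq_add_of_le' ha
  nlinarith

theorem six_sum {k a : ℕ} (hk : 1 ≤ k) :
    6 * (((2 * k + 3).choose 3 : ℤ) - ∑ i, ((mult k a i + 2).choose 3 : ℤ)) =
      3 * (k + 1) * (k + 2) - 2 * (a * (a + 1) * (a + 2)) := by
  rw [sum_mult k a fun n => ((n + 2).choose 3 : ℤ)]
  have h1 := three_choose (2 * k + 1)
  have h2 := three_choose k
  have h3 := three_choose (k - 1)
  have h4 := three_choose a
  have h5 : 2 * k + 1 + 2 = 2 * k + 3 := by ring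
  rw [h5] at h1
  rw [Nat.cast_sub hk] at h3
  push_cast at h1 h2 h3 h4 ⊢
  linear_combination h1 - 7 * h2 - h3 - 2 * h4

/-- The virtual dimension is at least `-1`. -/
theorem sum_le {k a : ℕ} (ha : 3 ≤ a) (hk : 2 * (k + 1) = a * (a + 1)) :
    0 ≤ ((2 * k + 3).choose 3 : ℤ) - ∑ i, ((mult k a i + 2).choose 3 : ℤ) := by
  have h1 := le_of ha hk
  have h2 := six_sum (k := k) (a := a) (by omega)
  have hk' : (2 : ℤ) * (k + 1) = a * (a + 1) := by exact_mod_cast hk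
  have h3 : (3 : ℤ) * (k + 1) * (k + 2) - 2 * (a * (a + 1) * (a + 2)) =
      (k + 1) * (3 * k - 4 * a - 2) := by
    linear_combination 2 * (a + 2 : ℤ) * hk'
  have ha' : (3 : ℤ) ≤ a := by exact_mod_cast ha
  have h4 : (0 : ℤ) ≤ 3 * k - 4 * a - 2 := by nlinarith
  have h5 : (0 : ℤ) ≤ (k + 1) * (3 * k - 4 * a - 2) := mul_nonneg (by positivity) h4
  linarith

theorem sum_eq {k a : ℕ} (ha : 3 ≤ a) (hk : 2 * (k + 1) = a * (a + 1)) :
    ((2 * (k - 2) + 3).choose 3 : ℤ) - ∑ i, ((mult (k - 2) (a - 1) i + 2).choose 3 : ℤ) =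
      ((2 * k + 3).choose 3 : ℤ) - ∑ i, ((mult k a i + 2).choose 3 : ℤ) + 1 := by
  have h1 := le_of ha hk
  have h2 := six_sum (k := k) (a := a) (by omega)
  have h3 := six_sum (k := k - 2) (a := a - 1) (by omega)
  have hk' : (2 : ℤ) * (k + 1) = a * (a + 1) := by exact_mod_cast hk
  have h4 : ((k - 2 : ℕ) : ℤ) = k - 2 := by push_cast [Nat.cast_sub (by omega : 2 ≤ k)]; ring
  have h5 : ((a - 1 : ℕ) : ℤ) = a - 1 := by push_cast [Nat.cast_sub (by omega : 1 ≤ a)]; ring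
  rw [h4, h5] at h3
  have h6 : 6 * (((2 * (k - 2) + 3).choose 3 : ℤ) -
      ∑ i, ((mult (k - 2) (a - 1) i + 2).choose 3 : ℤ)) =
      6 * (((2 * k + 3).choose 3 : ℤ) - ∑ i, ((mult k a i + 2).choose 3 : ℤ) + 1) := by
    rw [mul_add, h2, h3]
    linear_combination (-6 : ℤ) * hk'
  linarith

theorem mult_ge {k a : ℕ} (h : a + 1 ≤ k) (i : Fin 10) : a ≤ mult k a i ∧ mult k a i ≤ k := by
  fin_cases i <;> simp [mult] <;> omega

theorem reduced {k a : ℕ} (h : a + 1 ≤ k) : CremonaReduced (2 * k) (mult k a) := by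
  intro I hI
  have h1 : ∑ i ∈ I, mult k a i ≤ ∑ _i ∈ I, k := Finset.sum_le_sum fun i _ => (mult_ge h i).2
  rw [Finset.sum_const, hI, smul_eq_mul] at h1
  omega

theorem not_line {k a : ℕ} (h : a + 1 ≤ k) : ¬ LineCondition (2 * k) (mult k a) := by
  rintro ⟨i, j, -, hij⟩
  have h1 := (mult_ge h i).2
  have h2 := (mult_ge h j).2
  push_cast at hij
  omega

theorem triple_quadric {s : ℕ} (d : ℕ) (m : Fin s → ℕ) (I : Finset (Fin s)) :
    triple (quadric I) (cls d m - quadric I) (cls d m - canonical) =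
      2 * ((d : ℤ) - 2) * ((d : ℤ) + 4) - ∑ i ∈ I, ((m i : ℤ) - 1) * ((m i : ℤ) + 2) := by
  classical
  unfold triple quadric cls canonical
  have h : ∀ i : Fin s, (if i ∈ I then (1 : ℤ) else 0) *
      ((m i : ℤ) - if i ∈ I then (1 : ℤ) else 0) * ((m i : ℤ) - (-2)) =
      if i ∈ I then ((m i : ℤ) - 1) * ((m i : ℤ) + 2) else 0 := by
    intro i
    split_ifs <;> ring
  have h2 : ∑ i : Fin s, (if i ∈ I then (1 : ℤ) else 0) *
      ((m i : ℤ) - if i ∈ I then (1 : ℤ) else 0) * ((m i : ℤ) - (-2)) =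
      ∑ i ∈ I, ((m i : ℤ) - 1) * ((m i : ℤ) + 2) := by
    rw [Finset.sum_congr rfl fun i _ => h i, Finset.sum_ite_mem, Finset.univ_inter]
  have h3 : (2 : ℤ) * ((d : ℤ) - 2) * ((d : ℤ) - (-4)) = 2 * ((d : ℤ) - 2) * ((d : ℤ) + 4) := by
    ring
  calc _ = (2 : ℤ) * ((d : ℤ) - 2) * ((d : ℤ) - (-4)) -
        ∑ i : Fin s, (if i ∈ I then (1 : ℤ) else 0) *
          ((m i : ℤ) - if i ∈ I then (1 : ℤ) else 0) * ((m i : ℤ) - (-2)) := rfl
    _ = _ := by rw [h2, h3]

theorem not_quadric {k a : ℕ} (ha : 3 ≤ a) (hk : 2 * (k + 1) = a * (a + 1)) :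
    ¬ QuadricCondition (2 * k) (mult k a) := by
  classical
  rintro ⟨I, hI, hneg⟩
  have hle := le_of ha hk
  rw [triple_quadric] at hneg
  -- `I` misses exactly one of the points
  have hc : Iᶜ.card = 1 := by
    rw [Finset.card_compl, hI, Fintype.card_fin]
  obtain ⟨j, hj⟩ := Finset.card_eq_one.1 hc
  have h1 : ∑ i, ((mult k a i : ℤ) - 1) * ((mult k a i : ℤ) + 2) =
      7 * (((k : ℤ) - 1) * ((k : ℤ) + 2)) + (((k : ℤ) - 2) * ((k : ℤ) + 1)) +
        2 * (((a : ℤ) - 1) * ((a : ℤ) + 2)) := by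
    rw [sum_mult k a fun n => ((n : ℤ) - 1) * ((n : ℤ) + 2)]
    rw [Nat.cast_sub (by omega : 1 ≤ k)]
    push_cast
    ring
  have h2 := Finset.sum_add_sum_compl I fun i => ((mult k a i : ℤ) - 1) * ((mult k a i : ℤ) + 2)
  rw [hj, Finset.sum_singleton, h1] at h2
  have h3 : (a : ℤ) ≤ mult k a j := by exact_mod_cast (mult_ge (by omega) j).1
  have ha' : (3 : ℤ) ≤ a := by exact_mod_cast ha
  have h4 : ((a : ℤ) - 1) * ((a : ℤ) + 2) ≤ ((mult k a j : ℤ) - 1) * ((mult k a j : ℤ) + 2) := by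
    nlinarith
  have hk' : (2 : ℤ) * (k + 1) = a * (a + 1) := by exact_mod_cast hk
  push_cast at hneg
  nlinarith

/-- The multiplicities of the two quadrics. -/
def q₁ : Fin 10 → ℕ := ![1, 1, 1, 1, 1, 1, 1, 1, 1, 0]

/-- The multiplicities of the two quadrics. -/
def q₂ : Fin 10 → ℕ := ![1, 1, 1, 1, 1, 1, 1, 1, 0, 1]

theorem dim_ge {k a : ℕ} (ha : 3 ≤ a) (hk : 2 * (k + 1) = a * (a + 1))
    (P : Fin 10 → ℙ ℂ (Fin (3 + 1) → ℂ)) : vdim (2 * k) (mult k a) + 1 ≤ dim (2 * k) (mult k a) P := by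
  have hle := le_of ha hk
  obtain ⟨F, hF, hF0⟩ := exists_quadric q₁ (by decide) P
  obtain ⟨G, hG, hG0⟩ := exists_quadric q₂ (by decide) P
  have h1 : Module.finrank ℂ ↥(forms (2 * (k - 2)) (mult (k - 2) (a - 1)) P) ≤
      Module.finrank ℂ ↥(forms (2 + 2 * (k - 2)) (fun i => mult (k - 2) (a - 1) i + q₂ i) P) :=
    finrank_le_of_mul (fun i => by omega) hG0 hG
  have h2 : Module.finrank ℂ ↥(forms (2 + 2 * (k - 2)) (fun i => mult (k - 2) (a - 1) i + q₂ i) P) ≤
      Module.finrank ℂ ↥(forms (2 + (2 + 2 * (k - 2))) (mult k a) P) := by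
    refine finrank_le_of_mul (fun i => ?_) hF0 hF
    fin_cases i <;> simp [mult, q₁, q₂] <;> omega
  have h3 : 2 + (2 + 2 * (k - 2)) = 2 * k := by omega
  rw [h3] at h2
  have h4 := (finite_and_ge (2 * (k - 2)) (mult (k - 2) (a - 1)) P).2
  have h5 := sum_eq ha hk
  have h4' : ((2 * (k - 2) + 3).choose 3 : ℤ) ≤
      Module.finrank ℂ ↥(forms (2 * (k - 2)) (mult (k - 2) (a - 1)) P) +
        ∑ i, ((mult (k - 2) (a - 1) i + 2).choose 3 : ℤ) := by exact_mod_cast h4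
  have h6 : (Module.finrank ℂ ↥(forms (2 * (k - 2)) (mult (k - 2) (a - 1)) P) : ℤ) ≤
      Module.finrank ℂ ↥(forms (2 * k) (mult k a) P) := by exact_mod_cast h1.trans h2
  unfold vdim dim
  linarith

/-- **The conjecture of Laface and Ugaglia is false.**
(1) It fails for some degree and multiplicities.
(2) In fact, let `a ≥ 3` and `k + 1 = a (a + 1) / 2`. For all `P_1, …, P_10` in `ℙ³`, the system
`ℒ_{3,2k}(k^7, k - 1, a^2)` is nonempty, Cremona reduced and special, but it satisfies neither condition 1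
nor condition 2.  For `a = 3` it is `ℒ_{3,10}(5^7, 4, 3^2)`. -/
theorem result :
    (¬ ∀ (s d : ℕ) (m : Fin s → ℕ), 1 ≤ s →
      Generally (fun P : Fin s → ℙ ℂ (Fin (3 + 1) → ℂ) => LafaceUgaglia d m P)) ∧
    (∀ a k : ℕ, 3 ≤ a → 2 * (k + 1) = a * (a + 1) →
      (∀ P : Fin 10 → ℙ ℂ (Fin (3 + 1) → ℂ),
        forms (2 * k) ![k, k, k, k, k, k, k, k - 1, a, a] P ≠ ⊥ ∧
        Special (2 * k) ![k, k, k, k, k, k, k, k - 1, a, a] P) ∧
      CremonaReduced (2 * k) ![k, k, k, k, k, k, k, k - 1, a, a] ∧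
      ¬ LineCondition (2 * k) ![k, k, k, k, k, k, k, k - 1, a, a] ∧
      ¬ QuadricCondition (2 * k) ![k, k, k, k, k, k, k, k - 1, a, a]) := by
  have main : ∀ a k : ℕ, 3 ≤ a → 2 * (k + 1) = a * (a + 1) →
      (∀ P : Fin 10 → ℙ ℂ (Fin (3 + 1) → ℂ),
        forms (2 * k) (mult k a) P ≠ ⊥ ∧ Special (2 * k) (mult k a) P) ∧
      CremonaReduced (2 * k) (mult k a) ∧
      ¬ LineCondition (2 * k) (mult k a) ∧ ¬ QuadricCondition (2 * k) (mult k a) := by
    intro a k ha hk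
    have hle := le_of ha hk
    refine ⟨fun P => ?_, reduced (by omega), not_line (by omega), not_quadric ha hk⟩
    have h1 := dim_ge ha hk P
    have h2 := sum_le ha hk
    have h3 : (-1 : ℤ) ≤ vdim (2 * k) (mult k a) := by
      unfold vdim
      linarith
    constructor
    · intro h0
      unfold dim at h1
      rw [h0, finrank_bot] at h1
      push_cast at h1
      linarith
    · unfold Special edim
      rw [max_eq_left h3]
      linarith
  refine ⟨fun hall => ?_, main⟩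
  obtain ⟨hP, h1, h2, h3⟩ := main 3 5 le_rfl (by norm_num)
  obtain ⟨U, -, ⟨P, hPU⟩, hU⟩ := hall 10 (2 * 5) (mult 5 3) (by norm_num)
  rcases (hU P hPU (hP P).1 h1).1 (hP P).2 with h | h
  · exact h2 h
  · exact h3 h

end Pool.Agent.Results.MP_ed30a9_ag.ConjectureFails
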